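import Mathlib
import Pool.Prelude.Def_F_c31e40fa
import Pool.Agent.H13MD.Hmf

set_option autoImplicit false

open Filter Topology N62a1eb23

namespace Pool.Agent.Results.MP_c6f924_an.CuspHarmonicMeasure

open Pool.Agent.H713R2 MeasureTheory

/-- The angular size of a small disc around the cusp `1/4` of the Mandelbrot set (seen from
infinity along equipotentials which are close enough to the set) is
`exp (-π log 2 / √ρ)` up to factors `ρ ^ (± 1/2)`, `ρ` being the radius of the disc. -/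
theorem result :
    (∃ ψ : ℂ → ℂ, IsExteriorMap mandelbrotSet ψ) ∧
    ∀ ψ : ℂ → ℂ, IsExteriorMap mandelbrotSet ψ →
      ∃ C ρ₀ : ℝ, 0 < C ∧ 0 < ρ₀ ∧ ∀ ρ ∈ Set.Ioo 0 ρ₀, ∃ r₀ : ℝ, 1 < r₀ ∧
        ∀ r ∈ Set.Ioo 1 r₀,
          √ρ / C * Real.exp (-(Real.pi * Real.log 2 / √ρ)) ≤
            (volume {θ ∈ Set.Ioc 0 (2 * Real.pi) |
              ‖ψ (r * Complex.exp (θ * Complex.I)) - 1 / 4‖ < ρ}).toReal / (2 * Real.pi) ∧
          (volume {θ ∈ Set.Ioc 0 (2 * Real.pi) |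
              ‖ψ (r * Complex.exp (θ * Complex.I)) - 1 / 4‖ < ρ}).toReal / (2 * Real.pi) ≤
            C / √ρ * Real.exp (-(Real.pi * Real.log 2 / √ρ)) :=
  Pool.Agent.H13MD.harmonic_main

end Pool.Agent.Results.MP_c6f924_an.CuspHarmonicMeasure
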