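import Mathlib
import Pool.Prelude.Def_F_c31e40fa
import Pool.Agent.H13MD.Top

set_option autoImplicit false

open Filter Topology N62a1eb23

namespace Pool.Agent.Results.MP_c6f924_an.DyadicClasses

open Pool.Agent.H713R2

/-- The Laurent coefficients of the exterior conformal map of the Mandelbrot set are real; along
every residue class modulo a power of two their partial sums converge and their Abel sums have
the exact rate `(π log 2) ^ 2 / (2 ^ k log² h)`; and every window `[N, N')` with `N' ≥ N ^ A`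
carries negative coefficients of every such class, with explicit constant. -/
theorem result :
    (∃ (ψ : ℂ → ℂ) (b : ℕ → ℂ), IsExteriorMap mandelbrotSet ψ ∧ HasLaurent ψ b) ∧
    ∀ (ψ : ℂ → ℂ) (b : ℕ → ℂ), IsExteriorMap mandelbrotSet ψ → HasLaurent ψ b →
      (∀ m, (b m).im = 0) ∧
      ∀ k a : ℕ, a < 2 ^ k →
        (∃ s : ℝ,
          Tendsto (fun N : ℕ => ∑ m ∈ Finset.range N with m % 2 ^ k = a, (b m).re) atTop
            (𝓝 s) ∧
          ∃ (S : ℝ → ℝ) (C h₀ : ℝ), 0 < h₀ ∧ ∀ h ∈ Set.Ioo 0 h₀,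
            HasSum (fun m : ℕ => if m % 2 ^ k = a then (b m).re / (1 + h) ^ m else 0) (S h) ∧
            |S h - s - (Real.pi * Real.log 2) ^ 2 / (2 ^ k * Real.log h ^ 2)| ≤
              C / |Real.log h| ^ 3) ∧
        (∀ A η : ℝ, 1 < A → η < (Real.pi * Real.log 2) ^ 2 / 2 ^ k * (1 - 1 / A ^ 2) →
          ∀ᶠ N : ℕ in atTop, ∀ N' : ℕ, (N : ℝ) ^ A ≤ N' →
            η / Real.log N ^ 2 ≤
              ∑ m ∈ Finset.Ico N N' with m % 2 ^ k = a, max (-(b m).re) 0) :=
  ⟨Pool.Agent.H13MD.main.1, fun ψ b hψ hb =>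
    ⟨(Pool.Agent.H13MD.main.2 ψ b hψ hb).1, (Pool.Agent.H13MD.main.2 ψ b hψ hb).2.1⟩⟩

end Pool.Agent.Results.MP_c6f924_an.DyadicClasses
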