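import Mathlib
import Pool.Prelude.Def_F_c31e40fa
import Pool.Agent.H13RP.Fin

set_option autoImplicit false

open Set MeasureTheory Complex Real N62a1eb23

namespace Pool.Agent.Results.MP_c6f924_an.RationalHarmonicMeasure

open Pool.Agent.H713R2

/-- Harmonic measure of the Mandelbrot set at the rational points of the boundary of the main
cardioid: let `lam = e ^ (2 π i p / q)` with `1 ≤ p < q` coprime.  For all small `ρ` and all
`r > 1` close to `1`, the proportion of angles `θ` such that `ψ (r e^{iθ})` is at distance `< ρ`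
from `lam / 2 - lam ^ 2 / 4` lies between `exp (-(1 ± η) T)` with
`T = 2 π (log 2) sin (π p / q) / (q ρ)`. -/
theorem result :
    (∃ ψ : ℂ → ℂ, IsExteriorMap mandelbrotSet ψ) ∧
    ∀ ψ : ℂ → ℂ, IsExteriorMap mandelbrotSet ψ →
      ∀ (p q : ℕ) (lam : ℂ), 1 ≤ p → p < q → p.Coprime q →
      lam = Complex.exp (2 * π * I * (p / q)) →
      ∀ η ∈ Ioo (0 : ℝ) 1, ∃ ρ₀ : ℝ, 0 < ρ₀ ∧ ∀ ρ ∈ Ioo 0 ρ₀, ∃ r₀ : ℝ, 1 < r₀ ∧
        ∀ r ∈ Ioo 1 r₀,
          Real.exp (-((1 + η) * (2 * π * Real.log 2 * Real.sin (π * p / q) / (q * ρ)))) ≤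
            (volume {θ ∈ Ioc 0 (2 * π) |
              ‖ψ (r * Complex.exp (θ * I)) - (lam / 2 - lam ^ 2 / 4)‖ < ρ}).toReal / (2 * π) ∧
          (volume {θ ∈ Ioc 0 (2 * π) |
              ‖ψ (r * Complex.exp (θ * I)) - (lam / 2 - lam ^ 2 / 4)‖ < ρ}).toReal / (2 * π) ≤
            Real.exp (-((1 - η) * (2 * π * Real.log 2 * Real.sin (π * p / q) / (q * ρ)))) :=
  Pool.Agent.H13RP.cardioid_main

end Pool.Agent.Results.MP_c6f924_an.RationalHarmonicMeasure
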