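import Mathlib
import Pool.Prelude.Def_F_c31e40fa
import Pool.Agent.H13MD.Sgn

set_option autoImplicit false

open Filter Topology N62a1eb23

namespace Pool.Agent.Results.MP_c6f924_an.SignedWindows

open Pool.Agent.H713R2

/-- The Laurent coefficients of the exterior conformal map of the Mandelbrot set are real and
oscillate: for some `A` every late window `[N, N ^ A)` carries at least `c / log N` of the sum
of the positive coefficients and also of the absolute sum of the negative ones, at least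
`c / (log N) ^ 3` of both halves of the area series `∑ m b_m ^ 2`, and both halves of the area
series diverge when weighted with `(log m) ^ 3`. -/
theorem result :
    (∃ (ψ : ℂ → ℂ) (b : ℕ → ℂ), IsExteriorMap mandelbrotSet ψ ∧ HasLaurent ψ b) ∧
    ∀ (ψ : ℂ → ℂ) (b : ℕ → ℂ), IsExteriorMap mandelbrotSet ψ → HasLaurent ψ b →
      (∀ m, (b m).im = 0) ∧
      (∃ (c : ℝ) (A : ℕ), 0 < c ∧ ∀ᶠ N : ℕ in atTop,
        (c / Real.log N ≤ ∑ m ∈ Finset.Ico N (N ^ A), max (b m).re 0 ∧
          c / Real.log N ^ 3 ≤ ∑ m ∈ Finset.Ico N (N ^ A), (m : ℝ) * max (b m).re 0 ^ 2) ∧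
        (c / Real.log N ≤ ∑ m ∈ Finset.Ico N (N ^ A), max (-(b m).re) 0 ∧
          c / Real.log N ^ 3 ≤ ∑ m ∈ Finset.Ico N (N ^ A), (m : ℝ) * max (-(b m).re) 0 ^ 2)) ∧
      ¬ Summable (fun m : ℕ => (m : ℝ) * max (b m).re 0 ^ 2 * Real.log m ^ 3) ∧
      ¬ Summable (fun m : ℕ => (m : ℝ) * max (-(b m).re) 0 ^ 2 * Real.log m ^ 3) :=
  Pool.Agent.H13MD.signed

end Pool.Agent.Results.MP_c6f924_an.SignedWindows
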